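import Pool.Agent.Helper5.LCU.Stmts

set_option autoImplicit false

open Finset

namespace Pool.Agent.Helper79.LCU

open Pool.Agent.Helper5.LCU

theorem st_SH : ST_SH := by
  intro s r x hs
  unfold TT
  have e1 : x + r + 1 = r + (x + 1) := by ring
  rw [e1, Finset.sum_range_add]
  have z : ∑ m ∈ range r, ((x + r).choose m : ℝ) * s m = 0 :=
    Finset.sum_eq_zero (fun m hm => by rw [hs m (Finset.mem_range.1 hm), mul_zero])
  rw [z, zero_add, Finset.mul_sum]
  apply Finset.sum_congr rfl
  intro j _
  have hf : ((r + j).factorial : ℝ) ≠ 0 := by exact_mod_cast Nat.factorial_ne_zero _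
  have k1 : (x + r).descFactorial (r + j) = (r + j).factorial * (x + r).choose (r + j) :=
    Nat.descFactorial_eq_factorial_mul_choose _ _
  have k2 : x.descFactorial j = j.factorial * x.choose j :=
    Nat.descFactorial_eq_factorial_mul_choose _ _
  have k3 := Nat.descFactorial_mul_descFactorial (n := x + r) (k := r) (m := r + j)
    (Nat.le_add_right r j)
  rw [Nat.add_sub_cancel, Nat.add_sub_cancel_left, k2, k1] at k3
  have k4 : ((j.factorial : ℝ) * (x.choose j : ℝ)) * ((x + r).descFactorial r : ℝ) =
      ((r + j).factorial : ℝ) * ((x + r).choose (r + j) : ℝ) := by exact_mod_cast k3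
  field_simp
  linear_combination (-s (r + j)) * k4

end Pool.Agent.Helper79.LCU
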